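import Pool.Agent.N343.AS.Stm

/-!
Project AS (helper343), part CNT: levels with copies (helper31).
-/

set_option autoImplicit false

open Filter Topology Finset

namespace Pool.Agent.N31.AS

open Pool.Agent.N343.AS

theorem notSummable {f : ℕ → ℝ} (hf : ∀ m, 0 ≤ f m) (S : ℕ → Finset ℕ)
    (hd : ∀ N N', N ≠ N' → Disjoint (S N) (S N')) (h : ∀ N, 1 / 2 ≤ ∑ m ∈ S N, f m) :
    ¬ Summable f := by
  intro hs
  obtain ⟨K, hK⟩ := exists_nat_gt (2 * ∑' m, f m)
  have h1 : ∑ m ∈ (range K).biUnion S, f m ≤ ∑' m, f m := hs.sum_le_tsum _ fun m _ => hf m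
  rw [Finset.sum_biUnion fun N _ N' _ hNN' => hd N N' hNN'] at h1
  have h2 : ∑ _N ∈ range K, (1 / 2 : ℝ) ≤ ∑ N ∈ range K, ∑ m ∈ S N, f m :=
    Finset.sum_le_sum fun N _ => h N
  rw [Finset.sum_const, Finset.card_range, nsmul_eq_mul] at h2
  linarith

/-- **CNT** -/
theorem main : S_CNT := by
  intro l e C w he hp hn hw hw0
  -- the level tends to infinity
  have hl : Tendsto l atTop atTop := by
    rw [← Nat.cofinite_eq_atTop]
    refine Tendsto.cofinite_of_finite_preimage_singleton fun N => ?_
    refine (((hp N).2.union (hn N).2).subset ?_)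
    intro m hm
    rcases he m with h | h
    · exact Or.inl ⟨hm, h⟩
    · exact Or.inr ⟨hm, h⟩
  have hwl : Tendsto (fun m => w (l m)) atTop (𝓝 0) := hw0.comp hl
  have habs : ∀ m, |e m * w (l m)| = w (l m) := by
    intro m
    rw [abs_mul, abs_of_pos (hw _)]
    rcases he m with h | h <;> rw [h] <;> simp
  refine ⟨fun hC => ⟨?_, ?_, ?_⟩, hwl, fun hs => ?_⟩
  · rw [tendsto_zero_iff_abs_tendsto_zero]
    exact hwl.congr fun m => (habs m).symm
  · refine notSummable (fun m => le_max_right _ _) (fun N => (hp N).2.toFinset) ?_ ?_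
    · intro N N' hNN'
      rw [Finset.disjoint_left]
      intro m hm hm'
      rw [Set.Finite.mem_toFinset] at hm hm'
      exact hNN' (hm.1.symm.trans hm'.1)
    · intro N
      have h1 : ∑ m ∈ (hp N).2.toFinset, max (e m * w (l m)) 0 =
          ∑ _m ∈ (hp N).2.toFinset, w N := by
        refine Finset.sum_congr rfl fun m hm => ?_
        rw [Set.Finite.mem_toFinset] at hm
        rw [hm.1, hm.2, one_mul, max_eq_left (hw N).le]
      rw [h1, Finset.sum_const, nsmul_eq_mul, ← Set.ncard_eq_toFinset_card _ (hp N).2, (hp N).1]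
      exact hC N
  · refine notSummable (fun m => le_max_right _ _) (fun N => (hn N).2.toFinset) ?_ ?_
    · intro N N' hNN'
      rw [Finset.disjoint_left]
      intro m hm hm'
      rw [Set.Finite.mem_toFinset] at hm hm'
      exact hNN' (hm.1.symm.trans hm'.1)
    · intro N
      have h1 : ∑ m ∈ (hn N).2.toFinset, max (-(e m * w (l m))) 0 =
          ∑ _m ∈ (hn N).2.toFinset, w N := by
        refine Finset.sum_congr rfl fun m hm => ?_
        rw [Set.Finite.mem_toFinset] at hm
        rw [hm.1, hm.2, neg_one_mul, neg_neg, max_eq_left (hw N).le]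
      rw [h1, Finset.sum_const, nsmul_eq_mul, ← Set.ncard_eq_toFinset_card _ (hn N).2, (hn N).1]
      exact hC N
  · refine summable_of_sum_le (c := 2 * ∑' N, (C N : ℝ) * w N) (fun m => abs_nonneg _) fun u => ?_
    simp only [habs]
    have hmaps : ∀ m ∈ u, l m ∈ u.image l := fun m hm => Finset.mem_image_of_mem l hm
    rw [← Finset.sum_fiberwise_of_maps_to hmaps]
    have h1 : ∀ N ∈ u.image l, ∑ m ∈ u with l m = N, w (l m) ≤ 2 * ((C N : ℝ) * w N) := by
      intro N _
      have h2 : ∑ m ∈ u with l m = N, w (l m) = ∑ _m ∈ u with l _m = N, w N :=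
        Finset.sum_congr rfl fun m hm => by rw [(Finset.mem_filter.1 hm).2]
      rw [h2, Finset.sum_const, nsmul_eq_mul]
      have h3 : (u.filter fun m => l m = N) ⊆ (hp N).2.toFinset ∪ (hn N).2.toFinset := by
        intro m hm
        rw [Finset.mem_union, Set.Finite.mem_toFinset, Set.Finite.mem_toFinset]
        rcases he m with h | h
        · exact Or.inl ⟨(Finset.mem_filter.1 hm).2, h⟩
        · exact Or.inr ⟨(Finset.mem_filter.1 hm).2, h⟩
      have h4 : (u.filter fun m => l m = N).card ≤ 2 * C N := by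
        refine (Finset.card_le_card h3).trans ((Finset.card_union_le _ _).trans ?_)
        rw [← Set.ncard_eq_toFinset_card _ (hp N).2, ← Set.ncard_eq_toFinset_card _ (hn N).2,
          (hp N).1, (hn N).1]
        omega
      have h5 : (((u.filter fun m => l m = N).card : ℕ) : ℝ) ≤ 2 * C N := by exact_mod_cast h4
      have := mul_le_mul_of_nonneg_right h5 (hw N).le
      linarith
    refine (Finset.sum_le_sum h1).trans ?_
    rw [← Finset.mul_sum]
    have h6 : ∑ N ∈ u.image l, (C N : ℝ) * w N ≤ ∑' N, (C N : ℝ) * w N :=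
      hs.sum_le_tsum _ fun N _ => mul_nonneg (Nat.cast_nonneg _) (hw N).le
    linarith

end Pool.Agent.N31.AS
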